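import Pool.Agent.Q63.ISO.Stm2

/-!
# JOB LEN: lengths in an isothermal chart (helper280)
-/

set_option autoImplicit false

open MeasureTheory Set Filter Metric Bundle
open scoped ContDiff Topology Manifold

namespace Pool.Agent.Q280.ISO.LEN

open Pool.Agent.Q63.ISO

universe u

theorem proof_len : S_LEN.{u} := by
  intro M _ _ _ _ _ U φ ψ ρ hφ γ hγ a b hab hU
  have hγd : ∀ t, DifferentiableAt ℝ γ t := fun t => hγ.differentiable one_ne_zero t
  have hφd : ∀ t ∈ Icc a b, MDifferentiableAt 𝓘(ℝ, ℂ) (𝓡 2) φ (γ t) := fun t ht =>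
    ((hφ.smoothφ (γ t) (hU t ht)).contMDiffAt (hφ.openU.mem_nhds (hU t ht))).mdifferentiableAt
      (by simp)
  have hder : ∀ t ∈ Icc a b, mfderiv 𝓘(ℝ, ℝ) (𝓡 2) (fun t => φ (γ t)) t 1 =
      mfderiv 𝓘(ℝ, ℂ) (𝓡 2) φ (γ t) (deriv γ t) := fun t ht => by
    have h1 := mfderiv_comp (I := 𝓘(ℝ, ℝ)) (I' := 𝓘(ℝ, ℂ)) (I'' := 𝓡 2) t (hφd t ht)
      (hγd t).mdifferentiableAt
    have h2 : (fun t => φ (γ t)) = φ ∘ γ := rfl
    rw [h2, h1]
    rw [mfderiv_eq_fderiv]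
    rfl
  have hnorm : ∀ t ∈ Icc a b, ‖mfderiv 𝓘(ℝ, ℝ) (𝓡 2) (fun t => φ (γ t)) t 1‖ₑ =
      ENNReal.ofReal (√(ρ (γ t)) * ‖deriv γ t‖) := fun t ht => by
    rw [hder t ht, ← ofReal_norm]
    congr 1
    have h1 := hφ.conf (γ t) (hU t ht) (deriv γ t)
    have h2 := hφ.pos (γ t) (hU t ht)
    have h3 : (√(ρ (γ t)) * ‖deriv γ t‖) ^ 2 = ρ (γ t) * ‖deriv γ t‖ ^ 2 := by
      rw [mul_pow, Real.sq_sqrt h2.le]
    rw [← h3] at h1
    exact (sq_eq_sq₀ (norm_nonneg _) (by positivity)).1 h1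
  have hcont : ContinuousOn (fun t => √(ρ (γ t)) * ‖deriv γ t‖) (Icc a b) := by
    refine ContinuousOn.mul ?_ ?_
    · refine ContinuousOn.sqrt ?_
      exact hφ.smoothρ.continuousOn.comp hγ.continuous.continuousOn hU
    · exact ((hγ.continuous_deriv le_rfl).norm).continuousOn
  have hint : IntegrableOn (fun t => √(ρ (γ t)) * ‖deriv γ t‖) (Icc a b) :=
    hcont.integrableOn_compact isCompact_Icc
  have hnn : ∀ t, 0 ≤ √(ρ (γ t)) * ‖deriv γ t‖ := fun t => by positivity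
  have hlen : Manifold.pathELength (𝓡 2) (fun t => φ (γ t)) a b
      = ENNReal.ofReal (∫ t in a..b, √(ρ (γ t)) * ‖deriv γ t‖) := by
    rw [Manifold.pathELength_eq_lintegral_mfderiv_Icc, setLIntegral_congr_fun measurableSet_Icc hnorm,
      intervalIntegral.integral_of_le hab, ← integral_Icc_eq_integral_Ioc,
      ofReal_integral_eq_lintegral_ofReal hint (Filter.Eventually.of_forall hnn)]
  refine ⟨hlen, ?_⟩
  have hI : 0 ≤ ∫ t in a..b, √(ρ (γ t)) * ‖deriv γ t‖ :=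
    intervalIntegral.integral_nonneg hab fun t _ => hnn t
  have h1 : Manifold.riemannianEDist (𝓡 2) (φ (γ a)) (φ (γ b)) ≤
      Manifold.pathELength (𝓡 2) (fun t => φ (γ t)) a b := by
    refine Manifold.riemannianEDist_le_pathELength ?_ rfl rfl hab
    have h2 : ContMDiffOn 𝓘(ℝ, ℝ) 𝓘(ℝ, ℂ) 1 γ (Icc a b) := hγ.contMDiff.contMDiffOn
    exact (hφ.smoothφ.of_le (by simp)).comp h2 hU
  rw [← IsRiemannianManifold.out (I := 𝓡 2), hlen, edist_dist] at h1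
  exact (ENNReal.ofReal_le_ofReal_iff hI).1 h1

end Pool.Agent.Q280.ISO.LEN
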